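import Pool.Agent.Lib.MP_6bc78b_nt.MS.QZ.Iface3

/-! Project MS, Part QZ, module LAM: the sums with the von Mangoldt function. -/

set_option autoImplicit false

open Complex Filter Topology MeasureTheory ArithmeticFunction

namespace Pool.Agent.Lib.MP_6bc78b_nt.MS.QZ.H76

open Pool.Agent.Lib.MP_6bc78b_nt.MS Pool.Agent.Lib.MP_6bc78b_nt.MS.P1
open Pool.Agent.Lib.MP_6bc78b_nt.MS.QZ

namespace Lam

lemma nu_nonneg (n : ℕ) : 0 ≤ nu n := Finset.prod_nonneg (fun p _ => by positivity)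

lemma nu_le_one (n : ℕ) : nu n ≤ 1 := by
  unfold nu
  apply Finset.prod_le_one
  · intro p _
    positivity
  · intro p _
    rw [div_le_one (by positivity)]
    exact_mod_cast Nat.one_le_iff_ne_zero.2 (Nat.factorial_ne_zero _)

lemma pS_pow_nonneg (hV : VnuStatement) (S : Finset ℕ) (j n : ℕ) : 0 ≤ (pS S ^ j) n := by
  rcases eq_or_ne n 0 with h | h
  · rw [h]
    simp
  · rw [hV.1 S j n h]
    split_ifs
    · exact mul_nonneg (Nat.cast_nonneg _) (nu_nonneg n)
    · exact le_rfl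

lemma isPr_prs (a b : ℝ) : IsPr (prs a b) := by
  intro p hp
  exact (Finset.mem_filter.1 hp).2.1

lemma mem_prs_le (y : ℝ) (p : ℕ) (hy : 0 ≤ y) (hp : p ∈ prs 1 y) : (p : ℝ) ≤ y := by
  have h := (Finset.mem_Icc.1 (Finset.mem_filter.1 hp).1).2
  exact (Nat.le_floor_iff hy).1 h

lemma La_nonneg (n : ℕ) : 0 ≤ La n := ArithmeticFunction.vonMangoldt_nonneg

/-- The pointwise bound. -/
lemma point (hV : VnuStatement) (a b : ℕ) (y : ℝ) (hy : 3 ≤ y) (n : ℕ) (hn : n ≠ 0)
    (x : ℕ × ℕ) (hx : x ∈ n.divisorsAntidiagonal) :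
    La x.1 * (pS (prs 1 y) ^ a) x.2 * (pS (prs 1 y) ^ b) n ≤
      (if a < b then (b.factorial : ℝ) * ((if x.1 ≤ ⌊y ^ b⌋₊ then La x.1 else 0) *
        (pS (prs 1 y) ^ a) x.2) else 0) := by
  obtain ⟨hx1, -⟩ := Nat.mem_divisorsAntidiagonal.1 hx
  have hR : 0 ≤ (if a < b then (b.factorial : ℝ) * ((if x.1 ≤ ⌊y ^ b⌋₊ then La x.1 else 0) *
        (pS (prs 1 y) ^ a) x.2) else 0) := by
    split_ifs
    · exact mul_nonneg (Nat.cast_nonneg _)
        (mul_nonneg (La_nonneg _) (pS_pow_nonneg hV _ _ _))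
    · simp
    · exact le_rfl
  have hu0 : x.1 ≠ 0 := by
    intro h
    rw [h, zero_mul] at hx1
    exact hn hx1.symm
  have hv0 : x.2 ≠ 0 := by
    intro h
    rw [h, mul_zero] at hx1
    exact hn hx1.symm
  by_cases h1 : La x.1 = 0
  · rw [h1, zero_mul, zero_mul]
    exact hR.trans (by rw [h1])
  by_cases h2 : (pS (prs 1 y) ^ a) x.2 = 0
  · rw [h2] at hR ⊢
    rw [mul_zero, zero_mul]
    exact hR
  by_cases h3 : (pS (prs 1 y) ^ b) n = 0
  · rw [h3, mul_zero]
    exact hR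
  have e2 := hV.1 (prs 1 y) a x.2 hv0
  have e3 := hV.1 (prs 1 y) b n hn
  have c2 : cardFactors x.2 = a := by
    by_contra hc
    rw [if_neg (fun h => hc h.2)] at e2
    exact h2 e2
  have c3 : n.primeFactors ⊆ prs 1 y ∧ cardFactors n = b := by
    by_contra hc
    rw [if_neg hc] at e3
    exact h3 e3
  rw [if_pos c3] at e3
  have hpp : IsPrimePow x.1 := ArithmeticFunction.vonMangoldt_ne_zero_iff.1 h1
  obtain ⟨q, i, hq, hi, hqi⟩ := hpp
  have hq' : q.Prime := hq.nat_prime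
  have hcard : cardFactors n = i + a := by
    rw [← hx1, ArithmeticFunction.cardFactors_mul hu0 hv0, c2, ← hqi,
      ArithmeticFunction.cardFactors_apply_prime_pow hq']
  have hb : b = i + a := by rw [← c3.2, hcard]
  have hab : a < b := by omega
  have hqn : q ∈ n.primeFactors := by
    refine Nat.mem_primeFactors.2 ⟨hq', ?_, hn⟩
    rw [← hx1, ← hqi]
    exact Dvd.dvd.mul_right (dvd_pow_self q hi.ne') _
  have hqy : (q : ℝ) ≤ y := mem_prs_le y q (by linarith) (c3.1 hqn)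
  have hle : x.1 ≤ ⌊y ^ b⌋₊ := by
    apply Nat.le_floor
    rw [← hqi]
    push_cast
    calc (q : ℝ) ^ i ≤ y ^ i := pow_le_pow_left₀ (Nat.cast_nonneg _) hqy i
      _ ≤ y ^ b := pow_le_pow_right₀ (by linarith) (by omega)
  rw [if_pos hab, if_pos hle, e3]
  have h4 : 0 ≤ La x.1 * (pS (prs 1 y) ^ a) x.2 :=
    mul_nonneg (La_nonneg _) (pS_pow_nonneg hV _ _ _)
  have h5 : (b.factorial : ℝ) * nu n ≤ (b.factorial : ℝ) :=
    mul_le_of_le_one_right (Nat.cast_nonneg _) (nu_le_one n)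
  calc La x.1 * (pS (prs 1 y) ^ a) x.2 * ((b.factorial : ℝ) * nu n)
      ≤ La x.1 * (pS (prs 1 y) ^ a) x.2 * (b.factorial : ℝ) := by gcongr
    _ = _ := by ring

/-- Sums over divisors and double sums. -/
lemma double (F G : ℕ → ℝ) (hF : ∀ n, 0 ≤ F n) (hG : ∀ n, 0 ≤ G n) (N : ℕ) :
    ∑ n ∈ Finset.Icc 1 N, ∑ x ∈ n.divisorsAntidiagonal, F x.1 * G x.2 ≤
      (∑ u ∈ Finset.Icc 1 N, F u) * ∑ v ∈ Finset.Icc 1 N, G v := by
  classical
  have hd : (↑(Finset.Icc 1 N) : Set ℕ).PairwiseDisjoint (fun n => n.divisorsAntidiagonal) := by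
    intro n _ m _ hnm
    rw [Function.onFun, Finset.disjoint_left]
    intro x hx hx'
    exact hnm ((Nat.mem_divisorsAntidiagonal.1 hx).1.symm.trans
      (Nat.mem_divisorsAntidiagonal.1 hx').1)
  rw [← Finset.sum_biUnion hd, Finset.sum_mul_sum, ← Finset.sum_product']
  apply Finset.sum_le_sum_of_subset_of_nonneg
  · intro x hx
    obtain ⟨n, hn, hx⟩ := Finset.mem_biUnion.1 hx
    obtain ⟨h1, h2⟩ := Nat.mem_divisorsAntidiagonal.1 hx
    have hnN := (Finset.mem_Icc.1 hn).2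
    have hu : 0 < x.1 := Nat.pos_of_ne_zero (by
      intro h
      rw [h, zero_mul] at h1
      exact h2 h1.symm)
    have hv : 0 < x.2 := Nat.pos_of_ne_zero (by
      intro h
      rw [h, mul_zero] at h1
      exact h2 h1.symm)
    have hu' : x.1 ≤ n := h1 ▸ Nat.le_mul_of_pos_right _ hv
    have hv' : x.2 ≤ n := h1 ▸ Nat.le_mul_of_pos_left _ hu
    exact Finset.mem_product.2 ⟨Finset.mem_Icc.2 ⟨hu, hu'.trans hnN⟩,
      Finset.mem_Icc.2 ⟨hv, hv'.trans hnN⟩⟩
  · intro x _ _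
    exact mul_nonneg (hF _) (hG _)

end Lam

open Lam in
/-- LAM: the sums with the von Mangoldt function. -/
theorem lam (hV : VnuStatement) (hP : PsmStatement) (hM : L.MerStatement) : LamStatement := by
  classical
  intro a b
  obtain ⟨C0, hC0, hM1, -, -⟩ := hM
  refine ⟨(b.factorial : ℝ) * ((b : ℝ) + C0), by positivity, ?_⟩
  intro y N hy hr
  set S := prs 1 y with hS
  set r := rs S with hrdef
  have hlog : 1 ≤ Real.log y := by
    rw [Real.le_log_iff_exp_le (by linarith)]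
    have := Real.exp_one_lt_d9
    linarith
  have hnn : ∀ n, 0 ≤ (La * pS S ^ a) n * (pS S ^ b) n / (n : ℝ) := by
    intro n
    apply div_nonneg _ (Nat.cast_nonneg _)
    apply mul_nonneg _ (pS_pow_nonneg hV _ _ _)
    rw [ArithmeticFunction.mul_apply]
    exact Finset.sum_nonneg (fun x _ => mul_nonneg (La_nonneg _) (pS_pow_nonneg hV _ _ _))
  rw [abs_of_nonneg (Finset.sum_nonneg (fun n _ => hnn n))]
  set U := ⌊y ^ b⌋₊ with hU
  set F : ℕ → ℝ := fun u => (if u ≤ U then La u else 0) / (u : ℝ) with hF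
  set G : ℕ → ℝ := fun v => (pS S ^ a) v / (v : ℝ) with hG
  have hF0 : ∀ n, 0 ≤ F n := by
    intro n
    rw [hF]
    dsimp only
    apply div_nonneg _ (Nat.cast_nonneg _)
    split_ifs
    · exact La_nonneg n
    · exact le_rfl
  have hG0 : ∀ n, 0 ≤ G n := fun n => div_nonneg (pS_pow_nonneg hV _ _ _) (Nat.cast_nonneg _)
  have hterm : ∀ n ∈ Finset.Icc 1 N, (La * pS S ^ a) n * (pS S ^ b) n / (n : ℝ) ≤
      ∑ x ∈ n.divisorsAntidiagonal,
        (if a < b then (b.factorial : ℝ) * (F x.1 * G x.2) else 0) := by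
    intro n hn
    have hn0 : n ≠ 0 := by
      have := (Finset.mem_Icc.1 hn).1
      omega
    rw [ArithmeticFunction.mul_apply, Finset.sum_mul, Finset.sum_div]
    apply Finset.sum_le_sum
    intro x hx
    obtain ⟨h1, -⟩ := Nat.mem_divisorsAntidiagonal.1 hx
    have h2 := point hV a b y hy n hn0 x hx
    have h3 : (n : ℝ) = (x.1 : ℝ) * (x.2 : ℝ) := by
      rw [← h1]
      push_cast
      ring
    calc La x.1 * (pS S ^ a) x.2 * (pS S ^ b) n / (n : ℝ)
        ≤ (if a < b then (b.factorial : ℝ) * ((if x.1 ≤ ⌊y ^ b⌋₊ then La x.1 else 0) *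
          (pS (prs 1 y) ^ a) x.2) else 0) / (n : ℝ) := by gcongr
      _ = (if a < b then (b.factorial : ℝ) * (F x.1 * G x.2) else 0) := by
          rw [h3]
          by_cases hab : a < b
          · rw [if_pos hab, if_pos hab, hF, hG]
            dsimp only
            rw [mul_div_assoc, div_mul_div_comm]
          · rw [if_neg hab, if_neg hab, zero_div]
  by_cases hab : a < b
  · simp only [if_pos hab] at hterm
    have h1 : ∑ n ∈ Finset.Icc 1 N, (La * pS S ^ a) n * (pS S ^ b) n / (n : ℝ) ≤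
        (b.factorial : ℝ) * ((∑ u ∈ Finset.Icc 1 N, F u) * ∑ v ∈ Finset.Icc 1 N, G v) := by
      refine (Finset.sum_le_sum hterm).trans ?_
      simp only [← Finset.mul_sum]
      exact mul_le_mul_of_nonneg_left (double F G hF0 hG0 N) (Nat.cast_nonneg _)
    have h2 : ∑ u ∈ Finset.Icc 1 N, F u ≤ ((b : ℝ) + C0) * Real.log y := by
      have hy1 : (1 : ℝ) ≤ y ^ b := one_le_pow₀ (by linarith)
      have h3 := (abs_le.1 (hM1 (y ^ b) hy1)).2
      have h4 : ∑ u ∈ Finset.Icc 1 N, F u ≤ ∑ u ∈ Finset.Icc 1 U, L.w1 u := by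
        have e1 : ∀ u ∈ Finset.Icc 1 N, F u =
            if u ∈ Finset.Icc 1 U then L.w1 u else 0 := by
          intro u hu
          rw [hF]
          dsimp only
          have hu1 := (Finset.mem_Icc.1 hu).1
          by_cases huU : u ≤ U
          · rw [if_pos huU, if_pos (Finset.mem_Icc.2 ⟨hu1, huU⟩)]
            rfl
          · rw [if_neg huU, if_neg (fun h => huU (Finset.mem_Icc.1 h).2), zero_div]
        rw [Finset.sum_congr rfl e1, ← Finset.sum_filter]
        apply Finset.sum_le_sum_of_subset_of_nonneg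
        · intro u hu
          exact (Finset.mem_filter.1 hu).2
        · intro u _ _
          exact div_nonneg ArithmeticFunction.vonMangoldt_nonneg (Nat.cast_nonneg _)
      rw [Real.log_pow] at h3
      have h5 : C0 ≤ C0 * Real.log y := le_mul_of_one_le_right hC0.le hlog
      calc ∑ u ∈ Finset.Icc 1 N, F u ≤ ∑ u ∈ Finset.Icc 1 U, L.w1 u := h4
        _ ≤ (b : ℝ) * Real.log y + C0 := by linarith
        _ ≤ ((b : ℝ) + C0) * Real.log y := by linarith
    have h6 : ∑ v ∈ Finset.Icc 1 N, G v ≤ r ^ a :=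
      sum_le_hasSum _ (fun v _ => hG0 v) (hP.1 S a (isPr_prs 1 y))
    have h7 : 0 ≤ ∑ v ∈ Finset.Icc 1 N, G v := Finset.sum_nonneg (fun v _ => hG0 v)
    rw [min_eq_left hab.le]
    calc ∑ n ∈ Finset.Icc 1 N, (La * pS S ^ a) n * (pS S ^ b) n / (n : ℝ)
        ≤ (b.factorial : ℝ) * ((∑ u ∈ Finset.Icc 1 N, F u) * ∑ v ∈ Finset.Icc 1 N, G v) := h1
      _ ≤ (b.factorial : ℝ) * ((((b : ℝ) + C0) * Real.log y) * r ^ a) := by gcongr
      _ = (b.factorial : ℝ) * ((b : ℝ) + C0) * Real.log y * r ^ a := by ring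
  · simp only [if_neg hab, Finset.sum_const_zero] at hterm
    calc ∑ n ∈ Finset.Icc 1 N, (La * pS S ^ a) n * (pS S ^ b) n / (n : ℝ)
        ≤ ∑ n ∈ Finset.Icc 1 N, (0 : ℝ) := Finset.sum_le_sum hterm
      _ = 0 := Finset.sum_const_zero
      _ ≤ (b.factorial : ℝ) * ((b : ℝ) + C0) * Real.log y * r ^ min a b := by positivity

end Pool.Agent.Lib.MP_6bc78b_nt.MS.QZ.H76
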