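import Pool.Agent.Lib.MP_6bc78b_nt.MS.QZ.Iface3
import Pool.Agent.Lib.MP_6bc78b_nt.MS.QZ.H62.Typ

/-! Project MS, Part QZ, module TYG: the distribution of the mollifier over the zeros. -/

set_option autoImplicit false

open Complex Filter Topology MeasureTheory ArithmeticFunction

namespace Pool.Agent.Lib.MP_6bc78b_nt.MS.QZ.H76

open Pool.Agent.Lib.MP_6bc78b_nt.MS Pool.Agent.Lib.MP_6bc78b_nt.MS.P1
open Pool.Agent.Lib.MP_6bc78b_nt.MS.QZ
open Pool.Agent.Lib.MP_6bc78b_nt.MS.QZ.H62.Typ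

namespace Tyg

lemma half_tendsto : Tendsto (fun T => Real.sqrt (ll T / 2)) atTop atTop :=
  Real.tendsto_sqrt_atTop.comp (ll_tendsto.atTop_div_const (by norm_num))

/-- The exponential factor kills the polynomial one. -/
lemma exp_small' (a b c e : ℝ) (hc : 0 < c) (he : 0 < e) :
    ∀ᶠ T : ℝ in atTop, Real.exp (4 - c * Real.sqrt (ll T / 2)) * (a * ll T ^ 6 + b) ≤ e := by
  have h1 : Tendsto (fun x : ℝ => Real.exp 4 * (64 * a / c ^ 12 * (x ^ 12 * Real.exp (-x)) +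
      b * (x ^ 0 * Real.exp (-x)))) atTop (𝓝 (Real.exp 4 * (64 * a / c ^ 12 * 0 + b * 0))) :=
    (((Real.tendsto_pow_mul_exp_neg_atTop_nhds_zero 12).const_mul _).add
      ((Real.tendsto_pow_mul_exp_neg_atTop_nhds_zero 0).const_mul b)).const_mul _
  have h2 := h1.comp (half_tendsto.const_mul_atTop hc)
  simp only [mul_zero, add_zero] at h2
  filter_upwards [h2.eventually_lt_const he, ll_tendsto.eventually_ge_atTop 0] with T hT hl
  set x := Real.sqrt (ll T / 2) with hx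
  have hxx : ll T = 2 * x ^ 2 := by
    rw [hx, Real.sq_sqrt (by linarith)]
    ring
  have e1 : Real.exp (4 - c * x) = Real.exp 4 * Real.exp (-(c * x)) := by
    rw [← Real.exp_add]
    ring_nf
  rw [e1, hxx]
  refine le_trans (le_of_eq ?_) hT.le
  show _ = Real.exp 4 * (64 * a / c ^ 12 * ((c * x) ^ 12 * Real.exp (-(c * x))) +
      b * ((c * x) ^ 0 * Real.exp (-(c * x))))
  field_simp
  ring

lemma inv_ll_small (a e : ℝ) (he : 0 < e) : ∀ᶠ T : ℝ in atTop, a * dl T 0 ≤ e := by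
  have h1 : Tendsto (fun T : ℝ => a * (ll T ^ 2)⁻¹) atTop (𝓝 (a * 0)) :=
    (tendsto_inv_atTop_zero.comp ((tendsto_pow_atTop (by norm_num)).comp ll_tendsto)).const_mul a
  rw [mul_zero] at h1
  filter_upwards [h1.eventually_lt_const he] with T hT
  have e1 : dl T 0 = (ll T ^ 2)⁻¹ := by
    unfold dl
    simp
  rw [e1]
  exact hT.le

end Tyg

open Tyg in
/-- TYG: the distribution of the mollifier over the zeros. -/
theorem tyg (h1 : LiqStatement) (h2 : QfcStatement) (h3 : BadStatement) (h4 : TayStatement)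
    (h5 : Cf0Statement) (h6 : Pi0Statement) (h7 : DmvStatement) (h8 : Na0Statement)
    (h9 : SclStatement) : TygStatement := by
  classical
  intro th c1 c2 x ε hth hth2 hε
  obtain ⟨C1, T1, hC1, -, hbad⟩ := h3
  obtain ⟨T4, -, hcf⟩ := h5 th c1 c2 hth hth2
  obtain ⟨T5, -, hpi⟩ := h6 th c1 c2 hth hth2
  obtain ⟨C3, T6, hC3, -, hdmv⟩ := h7 (9 / 10 - th) (by linarith) (by linarith)
  obtain ⟨C4, T7, hC4, -, hna⟩ := h8 th c1 c2 hth hth2
  obtain ⟨T8, -, hscl⟩ := h9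
  have hQ : Qf (x - ε / 4) ≤ Qf x + ε / 4 := by
    have := (h2 (x - ε / 4) x (by linarith)).2.2.1
    linarith
  filter_upwards [eventually_ge_atTop T1, eventually_ge_atTop T4,
    eventually_ge_atTop T5, eventually_ge_atTop T6, eventually_ge_atTop T7,
    eventually_ge_atTop T8, eventually_ge_atTop (1 : ℝ), JJ_ge 0, cGL_ge,
    h1 (x - ε / 4) (ε / 4) (by positivity), inv_ll_small C1 (ε / 4) (by positivity),
    exp_small' (C3 * C4) C3 (ε / 2) (ε / 4) (by positivity) (by positivity)]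
    with T hT1 hT4 hT5 hT6 hT7 hT8 hT0 hJ hL hliq hdl0 hexp
  obtain ⟨hl, -, hdl, -, hRJ, -, -, hsR⟩ := hscl T hT8
  have hl0 : 0 < ll T := by linarith
  have hl1 : 1 ≤ ll T := by linarith
  set L : ℝ := cG T * Real.log T with hLdef
  have hj1 : 1 ≤ JJ T := by omega
  set s : ℝ := Real.sqrt (ll T / 2) with hs
  have hs0 : 0 < s := Real.sqrt_pos.2 (by positivity)
  -- the scale `1`
  have hd1 : 1 / dl T 1 ≤ ll T ^ 2 := by
    unfold dl
    rw [one_div_div]
    apply div_le_self (by positivity)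
    have := Real.add_one_le_exp ((1 : ℕ) : ℝ)
    push_cast at this ⊢
    linarith
  have hd10 : 0 ≤ 1 / dl T 1 := by
    unfold dl
    positivity
  -- the weights
  set f : ℝ → ℝ := fun γ => (mz γ : ℝ) * wt T γ with hf
  have hf0 : ∀ γ, 0 ≤ f γ := fun γ => mul_nonneg (Nat.cast_nonneg _) (Real.exp_pos _).le
  set M : ℝ → ℂ := fun γ => MM th c1 c2 T (1 / 2 + γ * I) with hM
  set P : ℝ → ℂ := fun γ => te (KJ T 0) (((1 : ℝ) : ℂ) * P0 T γ) with hP
  set G : ℝ → ℝ := fun γ => (if RJ T 0 < ‖P0 T γ‖ then (1 : ℝ) else 0) +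
    ((if x - ε / 4 < X0 T γ then (1 : ℝ) else 0) +
      Real.exp (4 - ε / 2 * s) * ‖M γ * P γ‖ ^ 2) with hG
  have hG0 : ∀ γ, 0 ≤ G γ := by
    intro γ
    rw [hG]
    dsimp only
    have ha : (0 : ℝ) ≤ (if RJ T 0 < ‖P0 T γ‖ then (1 : ℝ) else 0) := by split_ifs <;> norm_num
    have hb : (0 : ℝ) ≤ (if x - ε / 4 < X0 T γ then (1 : ℝ) else 0) := by
      split_ifs <;> norm_num
    positivity
  have hpt : ∀ γ, Real.exp (x * s) < ‖M γ‖ → 1 ≤ G γ := by
    intro γ hγ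
    rw [hG]
    dsimp only
    have ha : (0 : ℝ) ≤ (if RJ T 0 < ‖P0 T γ‖ then (1 : ℝ) else 0) := by split_ifs <;> norm_num
    have hb : (0 : ℝ) ≤ (if x - ε / 4 < X0 T γ then (1 : ℝ) else 0) := by
      split_ifs <;> norm_num
    have hc : 0 ≤ Real.exp (4 - ε / 2 * s) * ‖M γ * P γ‖ ^ 2 := by positivity
    by_cases hx : RJ T 0 < ‖P0 T γ‖
    · rw [if_pos hx]
      linarith
    · by_cases hy : x - ε / 4 < X0 T γ
      · rw [if_pos hy]
        linarith
      · rw [not_lt] at hx hy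
        have hre : -((x - ε / 4) * s) ≤ (P0 T γ).re := by
          have e : X0 T γ = -(P0 T γ).re / s := rfl
          rw [e, div_le_iff₀ hs0] at hy
          linarith
        have ht := h4 (RJ T 0) 1 (KJ T 0) (P0 T γ) (hRJ 0 (by omega)).1 (by simp) hx
          (hRJ 0 (by omega)).2.1
        have h5' : Real.exp (-2 * ((x - ε / 4) * s)) ≤ Real.exp 4 * ‖P γ‖ ^ 2 := by
          calc Real.exp (-2 * ((x - ε / 4) * s)) ≤ Real.exp (2 * 1 * (P0 T γ).re) :=
                Real.exp_le_exp.2 (by linarith)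
            _ ≤ Real.exp (4 * Real.exp (-RJ T 0)) * ‖P γ‖ ^ 2 := ht
            _ ≤ Real.exp 4 * ‖P γ‖ ^ 2 := by
                gcongr
                have : Real.exp (-RJ T 0) ≤ 1 := by
                  rw [Real.exp_le_one_iff]
                  linarith [(hRJ 0 (by omega)).1]
                linarith
        have h' : 1 ≤ Real.exp (4 - ε / 2 * s) * ‖M γ * P γ‖ ^ 2 := by
          have hMs : Real.exp (x * s) ^ 2 ≤ ‖M γ‖ ^ 2 :=
            pow_le_pow_left₀ (Real.exp_pos _).le hγ.le 2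
          calc (1 : ℝ) = Real.exp (-(ε / 2 * s)) * (Real.exp (x * s) ^ 2 *
                Real.exp (-2 * ((x - ε / 4) * s))) := by
                rw [← Real.exp_nat_mul, ← Real.exp_add, ← Real.exp_add, eq_comm,
                  Real.exp_eq_one_iff]
                push_cast
                ring
            _ ≤ Real.exp (-(ε / 2 * s)) * (‖M γ‖ ^ 2 * (Real.exp 4 * ‖P γ‖ ^ 2)) := by gcongr
            _ = Real.exp (4 - ε / 2 * s) * ‖M γ * P γ‖ ^ 2 := by
                rw [norm_mul, mul_pow, sub_eq_add_neg, Real.exp_add]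
                ring
        linarith
  -- the three sums
  have hS1 : ∑ γ ∈ ZZ T, f γ * (if RJ T 0 < ‖P0 T γ‖ then (1 : ℝ) else 0) ≤ ε / 4 * L := by
    have e : ∑ γ ∈ ZZ T, f γ * (if RJ T 0 < ‖P0 T γ‖ then (1 : ℝ) else 0) =
        ∑ γ ∈ (ZZ T).filter (fun γ => RJ T 0 < ‖P0 T γ‖), f γ := by
      rw [Finset.sum_filter]
      apply Finset.sum_congr rfl
      intro γ _
      split_ifs <;> simp
    have h := hbad T hT1 0 (by omega)
    rw [fsum_filter] at h
    rw [e]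
    calc ∑ γ ∈ (ZZ T).filter (fun γ => RJ T 0 < ‖P0 T γ‖), f γ ≤ C1 * dl T 0 * L := h
      _ ≤ ε / 4 * L := by gcongr
  have hS2 : ∑ γ ∈ ZZ T, f γ * (if x - ε / 4 < X0 T γ then (1 : ℝ) else 0) ≤
      (Qf x + ε / 2) * L := by
    have e : ∑ γ ∈ ZZ T, f γ * (if x - ε / 4 < X0 T γ then (1 : ℝ) else 0) =
        ∑ γ ∈ (ZZ T).filter (fun γ => x - ε / 4 < X0 T γ), f γ := by
      rw [Finset.sum_filter]
      apply Finset.sum_congr rfl
      intro γ _
      split_ifs <;> simp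
    have h := (le_of_eq (fsum_filter T (fun γ => x - ε / 4 < X0 T γ) f).symm).trans hliq
    rw [e]
    calc ∑ γ ∈ (ZZ T).filter (fun γ => x - ε / 4 < X0 T γ), f γ ≤
          (Qf (x - ε / 4) + ε / 4) * L := h
      _ ≤ (Qf x + ε / 2) * L := mul_le_mul_of_nonneg_right (by linarith) (by linarith)
  have hS3 : ∑ γ ∈ ZZ T, f γ * (Real.exp (4 - ε / 2 * s) * ‖M γ * P γ‖ ^ 2) ≤ ε / 4 * L := by
    have ecf := fun n => (hcf T hT4 1 1 0 (by simp) hj1 (by simp) n).1.1
    have h := hdmv T hT6 (bet th c1 c2 T * gA 1 T 1 0) ecf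
    have ee : (1 : ℝ) - (9 / 10 - th) = th + 1 / 10 := by ring
    rw [fsum_all, ee] at h
    have epi : ∀ γ : ℝ, dpoly (bet th c1 c2 T * gA 1 T 1 0) (T ^ (th + 1 / 10))
        (1 / 2 + γ * I) = M γ * P γ := by
      intro γ
      rw [(hpi T hT5 1 1 0 (by simp) hj1 (by simp) (1 / 2 + γ * I)).1, pow_zero, mul_one,
        Finset.prod_range_one]
      rfl
    simp only [epi] at h
    have hn : ∑ n ∈ Finset.Icc 1 ⌊T ^ (th + 1 / 10)⌋₊,
        ((bet th c1 c2 T * gA 1 T 1 0) n) ^ 2 / (n : ℝ) ≤ C4 * ll T ^ 6 := by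
      calc ∑ n ∈ Finset.Icc 1 ⌊T ^ (th + 1 / 10)⌋₊,
            ((bet th c1 c2 T * gA 1 T 1 0) n) ^ 2 / (n : ℝ)
          ≤ ∑ n ∈ Finset.Icc 1 ⌊T⌋₊, ((bet th c1 c2 T * gA 1 T 1 0) n) ^ 2 / (n : ℝ) := by
            apply Finset.sum_le_sum_of_subset_of_nonneg
            · apply Finset.Icc_subset_Icc_right
              apply Nat.floor_le_floor
              calc T ^ (th + 1 / 10) ≤ T ^ (1 : ℝ) :=
                    Real.rpow_le_rpow_of_exponent_le hT0 (by linarith)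
                _ = T := Real.rpow_one T
            · intro n _ _
              positivity
        _ ≤ C4 * ll T ^ 2 * (1 / dl T 1) ^ 2 := hna T hT7 1 le_rfl hj1
        _ ≤ C4 * ll T ^ 2 * (ll T ^ 2) ^ 2 := by gcongr
        _ = C4 * ll T ^ 6 := by ring
    calc ∑ γ ∈ ZZ T, f γ * (Real.exp (4 - ε / 2 * s) * ‖M γ * P γ‖ ^ 2)
        = Real.exp (4 - ε / 2 * s) * ∑ γ ∈ ZZ T, f γ * ‖M γ * P γ‖ ^ 2 := by
          rw [Finset.mul_sum]
          apply Finset.sum_congr rfl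
          intro γ _
          ring
      _ ≤ Real.exp (4 - ε / 2 * s) * (C3 * (L * ∑ n ∈ Finset.Icc 1 ⌊T ^ (th + 1 / 10)⌋₊,
            ((bet th c1 c2 T * gA 1 T 1 0) n) ^ 2 / (n : ℝ) + 1)) := by
          apply mul_le_mul_of_nonneg_left h (Real.exp_pos _).le
      _ ≤ Real.exp (4 - ε / 2 * s) * (C3 * (L * (C4 * ll T ^ 6) + L)) := by
          gcongr
      _ = Real.exp (4 - ε / 2 * s) * (C3 * C4 * ll T ^ 6 + C3) * L := by ring
      _ ≤ ε / 4 * L := by gcongr
  refine (le_of_eq (fsum_filter T (fun γ => Real.exp (x * s) < ‖M γ‖) f)).trans ?_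
  calc ∑ γ ∈ (ZZ T).filter (fun γ => Real.exp (x * s) < ‖M γ‖), f γ
      ≤ ∑ γ ∈ (ZZ T).filter (fun γ => Real.exp (x * s) < ‖M γ‖), f γ * G γ := by
        apply Finset.sum_le_sum
        intro γ hγ
        have := hpt γ (Finset.mem_filter.1 hγ).2
        nlinarith [hf0 γ]
    _ ≤ ∑ γ ∈ ZZ T, f γ * G γ := by
        apply Finset.sum_le_sum_of_subset_of_nonneg (Finset.filter_subset _ _)
        intro γ _ _
        exact mul_nonneg (hf0 γ) (hG0 γ)
    _ = ∑ γ ∈ ZZ T, f γ * (if RJ T 0 < ‖P0 T γ‖ then (1 : ℝ) else 0) +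
        (∑ γ ∈ ZZ T, f γ * (if x - ε / 4 < X0 T γ then (1 : ℝ) else 0) +
          ∑ γ ∈ ZZ T, f γ * (Real.exp (4 - ε / 2 * s) * ‖M γ * P γ‖ ^ 2)) := by
        rw [← Finset.sum_add_distrib, ← Finset.sum_add_distrib]
        apply Finset.sum_congr rfl
        intro γ _
        rw [hG]
        ring
    _ ≤ ε / 4 * L + ((Qf x + ε / 2) * L + ε / 4 * L) := by linarith
    _ = (Qf x + ε) * L := by ring

end Pool.Agent.Lib.MP_6bc78b_nt.MS.QZ.H76
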